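import Pool.Agent.Y501.SY.AmenU
import Pool.Agent.Y501.SY.BridgeU

/-!
Amenable coverings, maps and small exceptional sets, for closed forms with bounded translates.
-/

set_option autoImplicit false

open Set Filter Topology MeasureTheory
open scoped Manifold ContDiff

noncomputable section

namespace Pool.Agent.X168.SY

open Pool.Agent.Y501.SY

section

variable {d : ℕ} {Z X : Type} [TopologicalSpace Z] [ChartedSpace (E d) Z]
  [IsManifold (𝓡 d) ∞ Z] [TopologicalSpace X] [ChartedSpace (E d) X]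
  [IsManifold (𝓡 d) ∞ X] {Γ : Type} [Group Γ] [MulAction Γ Z]

theorem amenF {m : (Γ → ℝ) → ℝ} (hm : IsMean m)
    (hsm : ∀ γ : Γ, ContMDiff (𝓡 d) (𝓡 d) ∞ (fun z : Z => γ • z)) {pr : Z → X}
    (hpr : IsLocalDiffeomorph (𝓡 d) (𝓡 d) ∞ pr) (hsurj : Function.Surjective pr)
    (hfib : ∀ z z' : Z, pr z = pr z' ↔ ∃ γ : Γ, γ • z = z')
    [CompactSpace X] [T2Space X] {J : End d X} (hJ : IsAlmostComplex J)
    {w : Form d Z 2} (hw : IsSmooth w) (hwc : IsClosedForm w)
    (hbd : BoundedTranslates (Γ := Γ) w)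
    {n : ℕ} {f : X → E n} (hf : ContMDiff (𝓡 d) (𝓡 n) ∞ f)
    (hker : ∀ (z : Z) (v : TangentSpace (𝓡 d) (pr z)), ¬ UPos Γ pr J w z v →
      mfderiv (𝓡 d) (𝓡 n) f (pr z) v = 0)
    (hsmall : ∀ z : Z, pr z ∈ NotUnif Γ pr J w →
      SmallP J (connectedComponentIn (NotUnif Γ pr J w ∩ f ⁻¹' {f (pr z)}) (pr z)) (pr z)
        (fun v => ¬ UPos Γ pr J w z v)) :
    ∃ σ : Form d X 2, IsSmooth σ ∧ IsClosedForm σ ∧ ∀ x, TamesAt σ J x := by
  obtain ⟨w', hw', hwc', hav⟩ := Pool.Agent.Y141.SY.t_MEAN Pool.Agent.Y153.SY.t_AVG d Z Γ m hm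
    hsm w hw hwc hbd
  have hinv : ∀ γ : Γ, pull (d := d) (fun z : Z => γ • z) w' = w' := by
    intro g
    funext z
    ext u
    have hu : ![u 0, u 1] = u := by
      funext i; fin_cases i <;> rfl
    have e1 : pull (d := d) (fun z : Z => g • z) w' z u =
        w' (g • z) ![mfderiv (𝓡 d) (𝓡 d) (fun z : Z => g • z) z (u 0),
          mfderiv (𝓡 d) (𝓡 d) (fun z : Z => g • z) z (u 1)] := by
      rw [← pull_apply, hu]
    rw [e1, (hav _ _).2, (hav _ _).2]
    have e2 : (fun γ : Γ => pull (d := d) (fun z : Z => γ • z) w (g • z)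
        ![mfderiv (𝓡 d) (𝓡 d) (fun z : Z => g • z) z (u 0),
          mfderiv (𝓡 d) (𝓡 d) (fun z : Z => g • z) z (u 1)]) =
        fun γ : Γ => (fun γ : Γ => pull (d := d) (fun z : Z => γ • z) w z u) (γ * g) := by
      funext γ
      rw [pull_mul hsm, hu]
    rw [e2, hm.inv g _ (hav z u).1]
  obtain ⟨σ, hσ, hσc, hpull⟩ := Pool.Agent.Y391.SY.t_DESC d Z X Γ pr hsm hpr hsurj hfib w' hw' hwc'
    hinv
  have key : ∀ (z : Z) (v : TangentSpace (𝓡 d) (pr z)),
      UPos Γ pr J w z v → 0 < σ (pr z) ![v, J (pr z) v] := by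
    rintro z v ⟨u, u', hu, hu', c, hc, hcle⟩
    have e1 : w' z ![u, u'] = σ (pr z) ![v, J (pr z) v] := by
      rw [← hpull, pull_apply, hu, hu']
    rw [← e1, (hav z _).2]
    have hb := (hav z ![u, u']).1
    have hbc : Bdd (fun _ : Γ => -c) := ⟨|(-c)|, fun _ => le_rfl⟩
    have h2 := hm.nonneg (fun γ : Γ => pull (d := d) (fun z : Z => γ • z) w z ![u, u'] + (-c))
      (by
        obtain ⟨C, hC⟩ := hb
        exact ⟨C + |(-c)|, fun γ => (abs_add_le _ _).trans (add_le_add (hC γ) le_rfl)⟩)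
      (fun γ => by have := hcle γ; linarith)
    rw [hm.add _ _ hb hbc] at h2
    have h3 : m (fun _ : Γ => -c) = -c := by
      have h4 := hm.smul (-c) (fun _ => 1) ⟨1, fun _ => by simp⟩
      rw [hm.one] at h4
      simpa using h4
    rw [h3] at h2
    linarith
  have hsub : {x | ¬ TamesAt σ J x} ⊆ NotUnif Γ pr J w := by
    intro x hx
    obtain ⟨z, rfl⟩ := hsurj x
    by_contra hne
    apply hx
    intro v hv
    apply key z v
    by_contra hn
    exact hne ⟨z, rfl, v, hv, hn⟩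
  have hkerσ : ∀ (x : X) (v : TangentSpace (𝓡 d) x), σ x ![v, J x v] ≤ 0 →
      mfderiv (𝓡 d) (𝓡 n) f x v = 0 := by
    intro x v hv
    obtain ⟨z, rfl⟩ := hsurj x
    exact hker z v fun hup => absurd (key z v hup) (not_lt.2 hv)
  obtain ⟨σ', α, h1, h2, h3, -, -, -⟩ := final hJ hσ hσc hf hkerσ (by
    intro x hx
    obtain ⟨z, rfl⟩ := hsurj x
    refine (hsmall z (hsub hx)).smallAt (connectedComponentIn_mono _
      (inter_subset_inter_left _ hsub)) fun v hv hle => ?_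
    intro hup
    exact absurd (key z v hup) (not_lt.2 hle))
  exact ⟨σ', h1, h2, h3⟩

end

end Pool.Agent.X168.SY
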