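import Pool.Agent.Y501.SY.PubU

/-!
The definition used in the statement on amenable coverings and maps.
-/

set_option autoImplicit false

open Set Filter Topology MeasureTheory
open scoped Manifold ContDiff

noncomputable section

namespace Pool.Agent.X168.SY

open Pool.Agent.Y501.SYP

variable {V : Type} [NormedAddCommGroup V] [NormedSpace ℝ V]
  {Z X : Type} [TopologicalSpace Z] [ChartedSpace V Z]
  [TopologicalSpace X] [ChartedSpace V X]

/-- The components of the intersections of the fibres of `f` with the set of the points over which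
`w` does not uniformly tame the lift of `J` are small at all their points. -/
def SmallOnFibres [MeasurableSpace V] [BorelSpace V] {Y : Type} (Γ : Type) [Group Γ]
    [MulAction Γ Z] (pr : Z → X) (J : End V X) (w : Form V Z 2) (f : X → Y) : Prop :=
  ∀ z : Z, pr z ∈ NotUnif Γ pr J w →
    SmallAt J (connectedComponentIn (NotUnif Γ pr J w ∩ f ⁻¹' {f (pr z)}) (pr z)) (pr z)
      (fun v => ¬ UPos Γ pr J w z v)

/-- The differential of `f` vanishes on all tangent vectors `v` such that the translates of `w` are
not uniformly positive on `(v, J v)`. -/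
def KillsNonpositive {n : ℕ} (Γ : Type) [Group Γ] [MulAction Γ Z] (pr : Z → X) (J : End V X)
    (w : Form V Z 2) (f : X → ES n) : Prop :=
  ∀ (z : Z) (v : TangentSpace 𝓘(ℝ, V) (pr z)), ¬ UPos Γ pr J w z v →
    mfderiv 𝓘(ℝ, V) 𝓘(ℝ, ES n) f (pr z) v = 0

end Pool.Agent.X168.SY
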