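import Pool.Agent.Y501.SY.BridgeU
import Pool.Agent.Y501.SY.FinalU
import Pool.Agent.X168.SY.PubF

/-!
Prescribed classes, amenable coverings, maps and small exceptional sets.
(Adapted from `Pool.Agent.Y501.SY.AmenU`.)
-/

set_option autoImplicit false

open Set Filter Topology MeasureTheory
open scoped Manifold ContDiff

noncomputable section

namespace Pool.Agent.X168.SY

section

open Pool.Agent.Y501.SY

variable {d : ℕ} {Z X : Type} [TopologicalSpace Z] [ChartedSpace (E d) Z]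
  [IsManifold (𝓡 d) ∞ Z] [TopologicalSpace X] [ChartedSpace (E d) X]
  [IsManifold (𝓡 d) ∞ X] {Γ : Type} [Group Γ] [MulAction Γ Z]

theorem amenUF (hBT : S_BT) (hM1 : S_MEAN1) (hD1 : S_DESC1) {m : (Γ → ℝ) → ℝ} (hm : IsMean m)
    (hsm : ∀ γ : Γ, ContMDiff (𝓡 d) (𝓡 d) ∞ (fun z : Z => γ • z)) {pr : Z → X}
    (hpr : IsLocalDiffeomorph (𝓡 d) (𝓡 d) ∞ pr) (hsurj : Function.Surjective pr)
    (hfib : ∀ z z' : Z, pr z = pr z' ↔ ∃ γ : Γ, γ • z = z')
    [CompactSpace X] [T2Space X] {J : End d X} (hJ : IsAlmostComplex J)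
    {σ : Form d X 2} (hσ : IsSmooth σ) (hσc : IsClosedForm σ)
    {β : Form d Z 1} {η : Form d Z 2} (hβ : IsSmooth β) (hη : IsSmooth η) (hβη : IsD β η)
    (hbt : BoundedTranslates1 (Γ := Γ) β)
    {n : ℕ} {f : X → E n} (hf : ContMDiff (𝓡 d) (𝓡 n) ∞ f)
    (hker : ∀ (z : Z) (v : TangentSpace (𝓡 d) (pr z)),
      ¬ UPos Γ pr J (pull (d := d) pr σ + η) z v → mfderiv (𝓡 d) (𝓡 n) f (pr z) v = 0)
    (hsmall : ∀ z : Z, pr z ∈ NotUnif Γ pr J (pull (d := d) pr σ + η) →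
      SmallP J (connectedComponentIn (NotUnif Γ pr J (pull (d := d) pr σ + η) ∩
        f ⁻¹' {f (pr z)}) (pr z)) (pr z)
        (fun v => ¬ UPos Γ pr J (pull (d := d) pr σ + η) z v)) :
    ∃ (α : Form d X 1) (ρ : Form d X 2), IsSmooth α ∧ IsSmooth ρ ∧ IsD α ρ ∧
      IsClosedForm (σ + ρ) ∧ ∀ x, TamesAt (σ + ρ) J x := by
  have hbt2 := hBT d Z Γ hsm β η hβ hη hβη hbt
  obtain ⟨β', η', hβ', hη', hβη', hav1, hav2⟩ := hM1 Pool.Agent.Y153.SY.t_AVG d Z Γ m hm hsm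
    β η hβ hη hβη hbt hbt2
  have hcomp : ∀ (γ g : Γ), (fun z : Z => (γ * g) • z) =
      (fun z : Z => γ • z) ∘ (fun z : Z => g • z) := by
    intro γ g
    funext z; exact mul_smul γ g z
  have hinv1 : ∀ g : Γ, pull1 (d := d) (fun z : Z => g • z) β' = β' := by
    intro g
    funext z
    ext u
    have e1 := pull1_apply (fun z : Z => g • z) β' z u
    rw [e1, (hav1 _ _).2, (hav1 _ _).2]
    have e2 : (fun γ : Γ => pull1 (d := d) (fun z : Z => γ • z) β (g • z)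
        ![mfderiv (𝓡 d) (𝓡 d) (fun z : Z => g • z) z (u 0)]) =
        fun γ : Γ => (fun γ : Γ => pull1 (d := d) (fun z : Z => γ • z) β z u) (γ * g) := by
      funext γ
      have h2 : ∀ u : TangentSpace (𝓡 d) z,
          mfderiv (𝓡 d) (𝓡 d) ((fun z : Z => γ • z) ∘ (fun z : Z => g • z)) z u =
          mfderiv (𝓡 d) (𝓡 d) (fun z : Z => γ • z) (g • z)
            (mfderiv (𝓡 d) (𝓡 d) (fun z : Z => g • z) z u) := by
        intro u
        rw [mfderiv_comp z ((hsm γ (g • z)).mdifferentiableAt (by simp))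
          ((hsm g z).mdifferentiableAt (by simp))]
        rfl
      change _ = pull1 (d := d) (fun z : Z => (γ * g) • z) β z u
      rw [hcomp, pull1_apply, pull1_apply, h2]
      rfl
    rw [e2, hm.inv g _ (hav1 z u).1]
  have hinv2 : ∀ g : Γ, pull (d := d) (fun z : Z => g • z) η' = η' := by
    intro g
    funext z
    ext u
    have hu : ![u 0, u 1] = u := by
      funext i; fin_cases i <;> rfl
    have e1 : pull (d := d) (fun z : Z => g • z) η' z u =
        η' (g • z) ![mfderiv (𝓡 d) (𝓡 d) (fun z : Z => g • z) z (u 0),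
          mfderiv (𝓡 d) (𝓡 d) (fun z : Z => g • z) z (u 1)] := by
      rw [← pull_apply, hu]
    rw [e1, (hav2 _ _).2, (hav2 _ _).2]
    have e2 : (fun γ : Γ => pull (d := d) (fun z : Z => γ • z) η (g • z)
        ![mfderiv (𝓡 d) (𝓡 d) (fun z : Z => g • z) z (u 0),
          mfderiv (𝓡 d) (𝓡 d) (fun z : Z => g • z) z (u 1)]) =
        fun γ : Γ => (fun γ : Γ => pull (d := d) (fun z : Z => γ • z) η z u) (γ * g) := by
      funext γ
      rw [pull_mul hsm, hu]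
    rw [e2, hm.inv g _ (hav2 z u).1]
  obtain ⟨α₀, ρ₀, hα₀, hρ₀, hαρ₀, hpα, hpρ⟩ := hD1 d Z X Γ pr hsm hpr hsurj hfib β' η' hβ' hη'
    hβη' hinv1 hinv2
  have hρ₀c : IsClosedForm ρ₀ := closed_of_isD hα₀ hρ₀ hαρ₀
  have hσ' : IsSmooth (σ + ρ₀) := hσ.add hρ₀
  have hσ'c : IsClosedForm (σ + ρ₀) := by
    have h1 := hσc.add hρ₀c hσ hρ₀
    rwa [add_zero] at h1
  have hprs : ContMDiff (𝓡 d) (𝓡 d) ∞ pr := hpr.contMDiff
  have hprγ : ∀ (γ : Γ) (z : Z), pr (γ • z) = pr z := fun γ z =>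
    ((hfib z (γ • z)).2 ⟨γ, rfl⟩).symm
  -- uniform positivity implies positivity of the average
  have key : ∀ (z : Z) (v : TangentSpace (𝓡 d) (pr z)),
      UPos Γ pr J (pull (d := d) pr σ + η) z v → 0 < (σ + ρ₀) (pr z) ![v, J (pr z) v] := by
    rintro z v ⟨u, u', hu, hu', c, hc, hle⟩
    have e1 : (σ + ρ₀) (pr z) ![v, J (pr z) v] =
        pull (d := d) pr σ z ![u, u'] + η' z ![u, u'] := by
      have : (σ + ρ₀) (pr z) ![v, J (pr z) v] =
        σ (pr z) ![v, J (pr z) v] + ρ₀ (pr z) ![v, J (pr z) v] := rfl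
      rw [this, ← hpρ, pull_apply, pull_apply, hu, hu']
    have hb := (hav2 z ![u, u']).1
    have e2 : ∀ γ : Γ, pull (d := d) (fun z : Z => γ • z) (pull (d := d) pr σ + η) z ![u, u'] =
        pull (d := d) pr σ z ![u, u'] + pull (d := d) (fun z : Z => γ • z) η z ![u, u'] := by
      intro γ
      have h1 : pull (d := d) (fun z : Z => γ • z) (pull (d := d) pr σ + η) z ![u, u'] =
        pull (d := d) (fun z : Z => γ • z) (pull (d := d) pr σ) z ![u, u'] +
          pull (d := d) (fun z : Z => γ • z) η z ![u, u'] := rfl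
      rw [h1, pull_inv hsm hprs hprγ]
    rw [e1, (hav2 z _).2]
    have hbc : Bdd (fun _ : Γ => pull (d := d) pr σ z ![u, u'] - c) := ⟨_, fun _ => le_rfl⟩
    have h2 := hm.nonneg (fun γ : Γ => pull (d := d) (fun z : Z => γ • z) η z ![u, u'] +
        (pull (d := d) pr σ z ![u, u'] - c))
      (by
        obtain ⟨C, hC⟩ := hb
        exact ⟨C + |pull (d := d) pr σ z ![u, u'] - c|,
          fun γ => (abs_add_le _ _).trans (add_le_add (hC γ) le_rfl)⟩)
      (fun γ => by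
        have := hle γ
        rw [e2] at this
        linarith)
    rw [hm.add _ _ hb hbc] at h2
    have h3 : m (fun _ : Γ => pull (d := d) pr σ z ![u, u'] - c) =
        pull (d := d) pr σ z ![u, u'] - c := by
      have h4 := hm.smul (pull (d := d) pr σ z ![u, u'] - c) (fun _ => 1) ⟨1, fun _ => by simp⟩
      rw [hm.one] at h4
      simpa using h4
    rw [h3] at h2
    linarith
  have hsub : {x | ¬ TamesAt (σ + ρ₀) J x} ⊆ NotUnif Γ pr J (pull (d := d) pr σ + η) := by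
    intro x hx
    obtain ⟨z, rfl⟩ := hsurj x
    by_contra hne
    apply hx
    intro v hv
    apply key z v
    by_contra hn
    exact hne ⟨z, rfl, v, hv, hn⟩
  have hkerσ : ∀ (x : X) (v : TangentSpace (𝓡 d) x), (σ + ρ₀) x ![v, J x v] ≤ 0 →
      mfderiv (𝓡 d) (𝓡 n) f x v = 0 := by
    intro x v hv
    obtain ⟨z, rfl⟩ := hsurj x
    exact hker z v fun hup => absurd (key z v hup) (not_lt.2 hv)
  obtain ⟨σ', α, h1, h2, h3, -, h5, h6⟩ := final hJ hσ' hσ'c (f := f) hf hkerσ (by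
      intro x hx
      obtain ⟨z, rfl⟩ := hsurj x
      refine (hsmall z (hsub hx)).smallAt (connectedComponentIn_mono _
        (inter_subset_inter_left _ hsub)) fun v hv hle => ?_
      intro hup
      exact absurd (key z v hup) (not_lt.2 hle))
  have hρ : IsSmooth (σ' - σ) := by
    have h7 := h1.add (hσ.smul (-1))
    have h8 : σ' + (-1 : ℝ) • σ = σ' - σ := by
      funext x
      ext u
      change σ' x u + (-1 : ℝ) * σ x u = σ' x u - σ x u
      ring
    rwa [h8] at h7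
  refine ⟨α₀ + α, σ' - σ, hα₀.add h5, hρ, ?_, ?_, ?_⟩
  · have h7 := hαρ₀.add h6 hα₀ h5
    have h8 : ρ₀ + (σ' - (σ + ρ₀)) = σ' - σ := by abel
    rwa [h8] at h7
  · rwa [add_sub_cancel]
  · rwa [add_sub_cancel]

end

section

open Pool.Agent.Y501.SYP Pool.Agent.Y501

attribute [local instance] cs mf

variable {d : ℕ} {Z X : Type} [TopologicalSpace Z] [ChartedSpace (ES d) Z]
  [IsManifold 𝓘(ℝ, ES d) ∞ Z] [TopologicalSpace X] [ChartedSpace (ES d) X]
  [IsManifold 𝓘(ℝ, ES d) ∞ X] {Γ : Type} [Group Γ] [MulAction Γ Z]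

theorem amenable_class_maps [CompactSpace X] [T2Space X] (hΓ : Amenable Γ) (pr : Z → X)
    (hpr : NormalCovering (ES d) Γ pr) (J : End (ES d) X) (hJ : IsAlmostComplex J)
    (σ : Form (ES d) X 2) (hσ : IsSmooth σ) (hσc : IsClosedForm σ)
    (β : Form (ES d) Z 1) (η : Form (ES d) Z 2) (hβ : IsSmooth β) (hη : IsSmooth η)
    (hβη : IsD β η) (hbt : BoundedTranslates1 Γ β)
    (n : ℕ) (f : X → ES n) (hf : ContMDiff 𝓘(ℝ, ES d) 𝓘(ℝ, ES n) ∞ f)
    (hker : KillsNonpositive Γ pr J (addF (lift pr σ) η) f)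
    (hsmall : SmallOnFibres Γ pr J (addF (lift pr σ) η) f) :
    ∃ (α : Form (ES d) X 1) (ρ : Form (ES d) X 2), IsSmooth α ∧ IsSmooth ρ ∧ IsD α ρ ∧
      IsTamingSymplectic (addF σ ρ) J ∧ ∀ τ : Form (ES d) X 2, (∀ x, TamesAt τ J x) →
        ∀ t : ℝ, 0 ≤ t → t ≤ 1 → Nondeg (seg τ (addF σ ρ) t) := by
  obtain ⟨m, hm⟩ := hΓ
  obtain ⟨α, ρ, h1, h2, h3, h4, h5⟩ := amenUF (d := d) (Z := Z) (X := X) (Γ := Γ)
    Pool.Agent.Y903.SY.t_BT Pool.Agent.Y455.SY.t_MEAN1 Pool.Agent.Y945.SY.t_DESC1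
    (mean_of hm) hpr.smooth (pr := pr) hpr.diffeo hpr.surj hpr.orbits (J := J) (ac_of J hJ)
    (σ := σ) ((smooth_iff σ).1 hσ) ((closed_iff σ).1 hσc) (β := β) (η := η)
    ((smooth_iff β).1 hβ) ((smooth_iff η).1 hη) ((isD_iff β η).1 hβη)
    (fun U φ hU hφ => by
      have := hbt U φ ⟨hU, hφ⟩
      exact ⟨this.smooth, this.bound⟩)
    (n := n) (f := f) hf (fun z v hv => hker z v hv)
    (fun z hz => smallP_of (hsmall z hz))
  have h6 : IsTamingSymplectic (addF σ ρ) J :=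
    symp_of ((smooth_iff _).2 (((smooth_iff σ).1 hσ).add h2)) ((closed_iff _).2 h4) h5
  exact ⟨α, ρ, (smooth_iff α).2 h1, (smooth_iff ρ).2 h2, (isD_iff α ρ).2 h3, h6,
    fun τ hτ t ht0 ht1 => seg_nondeg hτ h6.tames t ht0 ht1⟩

end

end Pool.Agent.X168.SY
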