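import Pool.Agent.X168.SY.AmenF
import Pool.Agent.X168.SY.PubF
import Pool.Agent.Y501.SY.BridgeA

/-!
The criterion for amenable coverings and maps, for the public definitions.
-/

set_option autoImplicit false

open Set Filter Topology MeasureTheory
open scoped Manifold ContDiff

noncomputable section

namespace Pool.Agent.X168.SY

open Pool.Agent.Y501.SYP Pool.Agent.Y501

attribute [local instance] cs mf

variable {d : ℕ} {Z X : Type} [TopologicalSpace Z] [ChartedSpace (ES d) Z]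
  [IsManifold 𝓘(ℝ, ES d) ∞ Z] [TopologicalSpace X] [ChartedSpace (ES d) X]
  [IsManifold 𝓘(ℝ, ES d) ∞ X] {Γ : Type} [Group Γ] [MulAction Γ Z]

theorem amenable_maps [CompactSpace X] [T2Space X] (hΓ : Amenable Γ) (pr : Z → X)
    (hpr : NormalCovering (ES d) Γ pr) (J : End (ES d) X) (hJ : IsAlmostComplex J) :
    (∃ σ : Form (ES d) X 2, IsTamingSymplectic σ J) ↔
    ∃ (n : ℕ) (f : X → ES n) (w : Form (ES d) Z 2), ContMDiff 𝓘(ℝ, ES d) 𝓘(ℝ, ES n) ∞ f ∧
      IsSmooth w ∧ IsClosedForm w ∧ BoundedTranslates Γ w ∧ KillsNonpositive Γ pr J w f ∧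
      SmallOnFibres Γ pr J w f := by
  constructor
  · intro h
    obtain ⟨w, h1, h2, h3, h4⟩ := (amenable_descent hΓ pr hpr J).1 h
    have hbij : ∀ z : Z, Function.Bijective (mfderiv 𝓘(ℝ, ES d) 𝓘(ℝ, ES d) pr z) := by
      intro z
      have h1 := (hpr.diffeo z).mfderivToContinuousLinearEquiv_coe (by simp)
      rw [← h1]
      exact ((hpr.diffeo z).mfderivToContinuousLinearEquiv (by simp)).bijective
    have hup : ∀ (z : Z) (v : TangentSpace 𝓘(ℝ, ES d) (pr z)), v ≠ 0 → UPos Γ pr J w z v := by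
      intro z v hv
      obtain ⟨u, hu⟩ := (hbij z).2 v
      obtain ⟨u', hu'⟩ := (hbij z).2 (J (pr z) v)
      have hu0 : u ≠ 0 := by
        rintro rfl
        apply hv
        rw [← hu, map_zero]
      obtain ⟨c, hc, hcle⟩ := h4 z u u' hu0 (by rw [hu', hu])
      exact ⟨u, u', hu, hu', c, hc, hcle⟩
    refine ⟨0, fun _ => 0, w, contMDiff_const, h1, h2, h3, ?_, ?_⟩
    · intro z v _
      rw [mfderiv_const]; rfl
    · rintro z ⟨z', -, v, hv, hn⟩
      exact absurd (hup z' v hv) hn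
  · rintro ⟨n, f, w, hf, h1, h2, h3, h4, h5⟩
    obtain ⟨m, hm⟩ := hΓ
    obtain ⟨σ, g1, g2, g3⟩ := amenF (d := d) (Z := Z) (X := X) (Γ := Γ) (mean_of hm) hpr.smooth
      (pr := pr) hpr.diffeo hpr.surj hpr.orbits (J := J) (ac_of J hJ) (w := w)
      ((smooth_iff w).1 h1) ((closed_iff w).1 h2) ((bdt_iff w).1 h3) (n := n) (f := f) hf
      (fun z v hv => h4 z v hv) (fun z hz => smallP_of (h5 z hz))
    exact ⟨σ, symp_of ((smooth_iff σ).2 g1) ((closed_iff σ).2 g2) g3⟩

end Pool.Agent.X168.SY
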